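import Mathlib

set_option autoImplicit false

/-!
# FF25/Lin3: linear algebra in dimension three
-/

open scoped RealInnerProductSpace

namespace Pool.FF25

variable {E : Type*} [NormedAddCommGroup E] [InnerProductSpace ℝ E]

/-- the common perpendicular of two planes -/
theorem exists_perp (h3 : Module.finrank ℝ E = 3) (u v : E) : ∃ h : E, ‖h‖ = 1 ∧ ⟪u, h⟫ = 0 ∧
    ⟪v, h⟫ = 0 := by
  haveI : FiniteDimensional ℝ E := Module.finite_of_finrank_pos (by omega)
  have h1 : ∃ x : E, x ≠ 0 ∧ ⟪u, x⟫ = 0 ∧ ⟪v, x⟫ = 0 := by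
    classical
    let K : Submodule ℝ E := Submodule.span ℝ (({u, v} : Finset E) : Set E)
    have hK : Module.finrank ℝ K ≤ 2 :=
      (finrank_span_finset_le_card _).trans Finset.card_le_two
    have hK' : 0 < Module.finrank ℝ Kᗮ := by
      have := Submodule.finrank_add_finrank_orthogonal K
      omega
    obtain ⟨x, hx⟩ := (Module.finrank_pos_iff_exists_ne_zero (R := ℝ) (M := Kᗮ)).1 hK'
    have hx' := (Submodule.mem_orthogonal K (x : E)).1 x.2
    exact ⟨x, fun h => hx (by ext; simpa using h),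
      hx' u (Submodule.subset_span (by simp)), hx' v (Submodule.subset_span (by simp))⟩
  obtain ⟨x, hx0, hux, hvx⟩ := h1
  have hn : ‖x‖ ≠ 0 := norm_ne_zero_iff.2 hx0
  refine ⟨(‖x‖)⁻¹ • x, ?_, ?_, ?_⟩
  · rw [norm_smul, norm_inv, norm_norm, inv_mul_cancel₀ hn]
  · rw [inner_smul_right, hux, mul_zero]
  · rw [inner_smul_right, hvx, mul_zero]

/-- three independent vectors have no common perpendicular -/
theorem no_perp (h3 : Module.finrank ℝ E = 3) {u v w q : E} (hli : LinearIndependent ℝ ![u, v, w])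
    (hu : ⟪u, q⟫ = 0) (hv : ⟪v, q⟫ = 0) (hw : ⟪w, q⟫ = 0) : q = 0 := by
  by_contra hq
  have h4 : LinearIndependent ℝ ![u, v, w, q] := by
    rw [Fintype.linearIndependent_iff]
    intro g hg
    rw [Fin.sum_univ_four] at hg
    simp only [Matrix.cons_val_zero, Matrix.cons_val_one, Matrix.cons_val] at hg
    have h5 : ⟪g 0 • u + g 1 • v + g 2 • w + g 3 • q, q⟫ = 0 := by rw [hg, inner_zero_left]
    simp only [inner_add_left, real_inner_smul_left, hu, hv, hw] at h5
    have h6 : g 3 = 0 := by
      have h7 : g 3 * ⟪q, q⟫ = 0 := by linarith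
      exact (mul_eq_zero.1 h7).resolve_right (fun h => hq (inner_self_eq_zero.1 h))
    rw [h6, zero_smul, add_zero] at hg
    rw [Fintype.linearIndependent_iff] at hli
    have h7 := hli ![g 0, g 1, g 2] (by
      rw [Fin.sum_univ_three]
      simpa using hg)
    intro i
    fin_cases i
    · exact h7 0
    · exact h7 1
    · exact h7 2
    · exact h6
  haveI : FiniteDimensional ℝ E := Module.finite_of_finrank_pos (by omega)
  have h5 := h4.fintype_card_le_finrank
  rw [h3, Fintype.card_fin] at h5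
  omega

/-- the vectors orthogonal to two independent vectors are on one line -/
theorem perp_line (h3 : Module.finrank ℝ E = 3) {x y z z' : E} (hxy : LinearIndependent ℝ ![x, y])
    (hz : z ≠ 0) (h1 : ⟪x, z⟫ = 0) (h2 : ⟪y, z⟫ = 0) (h1' : ⟪x, z'⟫ = 0) (h2' : ⟪y, z'⟫ = 0) :
    ∃ t : ℝ, z' = t • z := by
  have hzz : ⟪z, z⟫ ≠ 0 := fun h => hz (inner_self_eq_zero.1 h)
  refine ⟨⟪z, z'⟫ / ⟪z, z⟫, ?_⟩
  have h5 : z' - (⟪z, z'⟫ / ⟪z, z⟫) • z = 0 := by
    refine no_perp h3 (u := x) (v := y) (w := z) ?_ ?_ ?_ ?_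
    · rw [Fintype.linearIndependent_iff]
      intro g hg
      rw [Fin.sum_univ_three] at hg
      simp only [Matrix.cons_val_zero, Matrix.cons_val_one, Matrix.cons_val] at hg
      have h5 : ⟪g 0 • x + g 1 • y + g 2 • z, z⟫ = 0 := by rw [hg, inner_zero_left]
      simp only [inner_add_left, real_inner_smul_left, h1, h2] at h5
      have h6 : g 2 = 0 := by
        have h7 : g 2 * ⟪z, z⟫ = 0 := by linarith
        exact (mul_eq_zero.1 h7).resolve_right hzz
      rw [h6, zero_smul, add_zero] at hg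
      rw [LinearIndependent.pair_iff] at hxy
      obtain ⟨h7, h8⟩ := hxy _ _ hg
      intro i
      fin_cases i
      · exact h7
      · exact h8
      · exact h6
    · rw [inner_sub_right, real_inner_smul_right, h1, h1']
      ring
    · rw [inner_sub_right, real_inner_smul_right, h2, h2']
      ring
    · rw [inner_sub_right, real_inner_smul_right, div_mul_cancel₀ _ hzz, sub_self]
  exact sub_eq_zero.1 h5

end Pool.FF25
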