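import Pool.Agent.FF57.CDef
import Pool.Agent.FF24.Act
import Pool.Agent.FF38.ActTwo
import Pool.Agent.FF25.Lin3

set_option autoImplicit false

/-!
# FF25/EdgeS: edges of a polytope in dimension 3 (proofs of `near`, `edge`, `seg` of FF57/Edge)
-/

open Set Metric Filter Topology
open scoped RealInnerProductSpace

namespace Pool.FF25

open Pool.FF24 Pool.FF56 Pool.FF57

variable {E : Type*} [NormedAddCommGroup E] [InnerProductSpace ℝ E] {P : HPoly E}

theorem nearS {m : E} (hm : m ∈ P.body) :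
    ∃ ε : ℝ, 0 < ε ∧ ∀ q : E, ‖q‖ < ε → (∀ u ∈ P.act m, ⟪u, q⟫ ≤ 0) → m + q ∈ P.body := by
  have hev : ∀ᶠ q : E in 𝓝 0, ∀ w ∈ P.N, w ∉ P.act m → ⟪w, m + q⟫ < P.h w := by
    rw [Filter.eventually_all_finset]
    intro w hw
    by_cases ha : w ∈ P.act m
    · exact Filter.Eventually.of_forall fun q h => absurd ha h
    · have hlt : ⟪w, m⟫ < P.h w := lt_of_le_of_ne (hm w hw) fun h => ha ⟨hw, h⟩
      have hc : Continuous fun q : E => ⟪w, m + q⟫ := by fun_prop
      have h1 := hc.tendsto 0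
      rw [add_zero] at h1
      filter_upwards [h1.eventually_lt_const hlt] with q hq _
      exact hq
  obtain ⟨ε, hε, h⟩ := Metric.eventually_nhds_iff.1 hev
  refine ⟨ε, hε, fun q hq hact w hw => ?_⟩
  by_cases ha : w ∈ P.act m
  · rw [inner_add_right, ha.2]
    linarith [hact w ha]
  · exact (h (by rwa [dist_zero_right]) w hw ha).le

theorem edgeS [FiniteDimensional ℝ E] (hd : Module.finrank ℝ E = 3) {w x x' : E} (hw : w ≠ 0)
    (hx : x ∈ Fw P w) (hx' : x' ∈ Fw P w) (hne : x ≠ x') :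
    (∃ n ∈ P.N, ∃ t : ℝ, 0 < t ∧ w = t • n) ∨
      ∃ m ∈ P.body, ∃ u v : E, u ≠ v ∧ P.act m = {u, v} ∧ ⟪u, x' - x⟫ = 0 ∧ ⟪v, x' - x⟫ = 0 ∧
        ∃ α β : ℝ, 0 < α ∧ 0 < β ∧ w = α • u + β • v := by
  classical
  obtain ⟨m, hmd⟩ : ∃ m : E, m = (1 / 2 : ℝ) • (x + x') := ⟨_, rfl⟩
  have hin : ∀ n : E, ⟪n, m⟫ = (⟪n, x⟫ + ⟪n, x'⟫) / 2 := by
    intro n
    rw [hmd, real_inner_smul_right, inner_add_right]
    ring
  have hm : m ∈ P.body := by
    intro n hn
    rw [hin]
    linarith [hx.1 n hn, hx'.1 n hn]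
  have hperp : ∀ n ∈ P.act m, ⟪n, x' - x⟫ = 0 := by
    intro n hn
    have h1 := hn.2
    rw [hin] at h1
    have h2 := hx.1 n hn.1
    have h3 := hx'.1 n hn.1
    rw [inner_sub_right]
    linarith
  have hq0 : x' - x ≠ 0 := sub_ne_zero.2 (Ne.symm hne)
  have hmax : ∀ z ∈ P.body, ⟪w, z⟫ ≤ ⟪w, m⟫ := by
    intro z hz
    rw [hin]
    linarith [hx.2 z hz, hx'.2 z hz]
  have hfar : ∀ q : E, (∀ n ∈ P.act m, ⟪n, q⟫ ≤ 0) → ⟪w, q⟫ ≤ 0 := by
    intro q hq
    obtain ⟨s, hs, hsb⟩ := Pool.FF38.tangent hm hq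
    have h1 := hmax _ hsb
    rw [inner_add_right, real_inner_smul_right] at h1
    by_contra hcon
    push Not at hcon
    have := mul_pos hs hcon
    linarith
  -- at most two active normals
  have htwo : ∀ a ∈ P.act m, ∀ b ∈ P.act m, ∀ c ∈ P.act m, a ≠ b → a ≠ c → b ≠ c → False := by
    intro a ha b hb c hc hab hac hbc
    exact hq0 (no_perp hd (act_three hm ha hb hc hab hac hbc) (hperp a ha) (hperp b hb) (hperp c hc))
  by_cases h0 : ∃ u, u ∈ P.act m
  swap
  · exfalso
    push Not at h0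
    have h1 := hfar w (fun n hn => absurd hn (h0 n))
    exact hw (inner_self_eq_zero.1 (le_antisymm h1 real_inner_self_nonneg))
  obtain ⟨u, hu⟩ := h0
  have huu : ⟪u, u⟫ = 1 := by rw [real_inner_self_eq_norm_sq, P.unit u hu.1]; norm_num
  by_cases h1 : ∃ v ∈ P.act m, v ≠ u
  swap
  · left
    push Not at h1
    have h2 := hfar (w - ⟪u, w⟫ • u) (by
      intro n hn
      rw [h1 n hn, inner_sub_right, real_inner_smul_right, huu, mul_one, sub_self])
    have h3 : ⟪w - ⟪u, w⟫ • u, w - ⟪u, w⟫ • u⟫ = ⟪w, w - ⟪u, w⟫ • u⟫ := by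
      nth_rewrite 1 [inner_sub_left]
      rw [real_inner_smul_left, inner_sub_right, inner_sub_right, real_inner_smul_right,
        real_inner_smul_right, huu]
      ring
    rw [← h3] at h2
    have h4 : w - ⟪u, w⟫ • u = 0 := inner_self_eq_zero.1 (le_antisymm h2 real_inner_self_nonneg)
    have h5 : w = ⟪u, w⟫ • u := sub_eq_zero.1 h4
    have h6 := hfar (-u) (by
      intro n hn
      rw [h1 n hn, inner_neg_right, huu]
      norm_num)
    rw [inner_neg_right, real_inner_comm] at h6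
    refine ⟨u, hu.1, ⟪u, w⟫, lt_of_le_of_ne (by linarith) ?_, h5⟩
    intro h7
    rw [← h7, zero_smul] at h5
    exact hw h5
  obtain ⟨v, hv, hvu⟩ := h1
  have hact : P.act m = {u, v} := by
    ext n
    rw [mem_insert_iff, mem_singleton_iff]
    constructor
    · intro hn
      by_contra hcon
      push Not at hcon
      exact htwo u hu v hv n hn (Ne.symm hvu) (Ne.symm hcon.1) (Ne.symm hcon.2)
    · rintro (rfl | rfl)
      · exact hu
      · exact hv
  have hvv : ⟪v, v⟫ = 1 := by rw [real_inner_self_eq_norm_sq, P.unit v hv.1]; norm_num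
  have hli := act_pair hm hu hv (Ne.symm hvu)
  rw [LinearIndependent.pair_iff] at hli
  -- the dual vectors
  have hdual : ∀ a b : E, ⟪b, b⟫ = 1 → (∀ s t : ℝ, s • a + t • b = 0 → s = 0) →
      0 < ⟪a - ⟪a, b⟫ • b, a - ⟪a, b⟫ • b⟫ ∧ ⟪b, a - ⟪a, b⟫ • b⟫ = 0 ∧
      ⟪a, a - ⟪a, b⟫ • b⟫ = ⟪a - ⟪a, b⟫ • b, a - ⟪a, b⟫ • b⟫ := by
    intro a b hb hab
    have e1 : ⟪b, a - ⟪a, b⟫ • b⟫ = 0 := by
      rw [inner_sub_right, real_inner_smul_right, hb, real_inner_comm]
      ring
    refine ⟨?_, e1, ?_⟩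
    · refine real_inner_self_pos.2 fun h => ?_
      have := hab 1 (-⟪a, b⟫) (by rw [one_smul, neg_smul, ← sub_eq_add_neg]; exact h)
      exact one_ne_zero this
    · rw [inner_sub_left, real_inner_smul_left, e1]
      ring
  obtain ⟨d1, d2, d3⟩ := hdual u v hvv fun s t h => (hli s t h).1
  obtain ⟨d1', d2', d3'⟩ := hdual v u huu fun s t h => (hli t s (by rw [add_comm]; exact h)).2
  obtain ⟨a, b, hab⟩ := Pool.FF38.in_span (w := w) (P.unit v hv.1) d1 (by
    intro q huq hvq
    refine le_antisymm (hfar q fun n hn => ?_) ?_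
    · rw [hact] at hn
      rcases hn with rfl | hn
      · exact huq.le
      · rw [mem_singleton_iff.1 hn]
        exact hvq.le
    · have h7 := hfar (-q) (fun n hn => by
        rw [hact] at hn
        rcases hn with rfl | hn
        · rw [inner_neg_right, huq, neg_zero]
        · rw [mem_singleton_iff.1 hn, inner_neg_right, hvq, neg_zero])
      rw [inner_neg_right] at h7
      linarith)
  have ha : 0 ≤ a := by
    have h7 := hfar (-(u - ⟪u, v⟫ • v)) (fun n hn => by
      rw [hact] at hn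
      rcases hn with rfl | hn
      · rw [inner_neg_right, d3]
        linarith
      · rw [mem_singleton_iff.1 hn, inner_neg_right, d2, neg_zero])
    rw [inner_neg_right, hab, inner_add_left, real_inner_smul_left, real_inner_smul_left, d2, d3]
      at h7
    by_contra hcon
    push Not at hcon
    have := mul_neg_of_neg_of_pos hcon d1
    linarith
  have hb : 0 ≤ b := by
    have h7 := hfar (-(v - ⟪v, u⟫ • u)) (fun n hn => by
      rw [hact] at hn
      rcases hn with rfl | hn
      · rw [inner_neg_right, d2', neg_zero]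
      · rw [mem_singleton_iff.1 hn, inner_neg_right, d3']
        linarith)
    rw [inner_neg_right, hab, inner_add_left, real_inner_smul_left, real_inner_smul_left, d2',
      d3'] at h7
    by_contra hcon
    push Not at hcon
    have := mul_neg_of_neg_of_pos hcon d1'
    linarith
  rcases ha.eq_or_lt with ha0 | ha0
  · left
    rw [← ha0, zero_smul, zero_add] at hab
    refine ⟨v, hv.1, b, lt_of_le_of_ne hb fun h => hw ?_, hab⟩
    rw [hab, ← h, zero_smul]
  rcases hb.eq_or_lt with hb0 | hb0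
  · left
    rw [← hb0, zero_smul, add_zero] at hab
    exact ⟨u, hu.1, a, ha0, hab⟩
  right
  exact ⟨m, hm, u, v, Ne.symm hvu, hact, hperp u hu, hperp v hv, a, b, ha0, hb0, hab⟩

theorem body_compactS [FiniteDimensional ℝ E] : IsCompact P.body := by
  refine Metric.isCompact_of_isClosed_isBounded ?_ ?_
  · have h1 : P.body = ⋂ u ∈ P.N, {z : E | ⟪u, z⟫ ≤ P.h u} := by
      ext z
      simp [HPoly.body]
    rw [h1]
    refine isClosed_biInter fun u _ => isClosed_le ?_ continuous_const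
    fun_prop
  · obtain ⟨r, hr⟩ := P.bdd
    exact isBounded_iff_forall_norm_le.2 ⟨r, fun z hz => hr z hz⟩

theorem body_convexS : Convex ℝ P.body := by
  intro x hx y hy a b ha hb hab u hu
  rw [inner_add_right, real_inner_smul_right, real_inner_smul_right]
  have h1 := mul_le_mul_of_nonneg_left (hx u hu) ha
  have h2 := mul_le_mul_of_nonneg_left (hy u hu) hb
  have h3 : a * P.h u + b * P.h u = P.h u := by rw [← add_mul, hab, one_mul]
  linarith

theorem segS [FiniteDimensional ℝ E] (hd : Module.finrank ℝ E = 3) {y u v : E} (hy : y ∈ P.body)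
    (huv : u ≠ v) (h : P.act y = {u, v}) : ∃ c : E, ∀ z ∈ P.mf y, c - z ∈ P.mf y := by
  have huA : u ∈ P.act y := by rw [h]; simp
  have hvA : v ∈ P.act y := by rw [h]; simp
  have hli := act_pair hy huA hvA huv
  obtain ⟨g, hg, hug, hvg⟩ := exists_perp hd u v
  have hg0 : g ≠ 0 := by
    intro h0
    rw [h0, norm_zero] at hg
    exact zero_ne_one hg
  have hgg : ⟪g, g⟫ = 1 := by rw [real_inner_self_eq_norm_sq, hg]; norm_num
  have hmf : ∀ z, z ∈ P.mf y ↔ ∃ t : ℝ, y + t • g ∈ P.body ∧ z = y + t • g := by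
    intro z
    rw [mf_eq hy]
    constructor
    · rintro ⟨hz, hsub⟩
      have h1 := (hsub huA).2
      have h2 := (hsub hvA).2
      obtain ⟨t, ht⟩ := perp_line hd hli hg0 hug hvg (z' := z - y)
        (by rw [inner_sub_right, h1, huA.2, sub_self]) (by rw [inner_sub_right, h2, hvA.2, sub_self])
      have h3 : z = y + t • g := by rw [← ht]; abel
      exact ⟨t, h3 ▸ hz, h3⟩
    · rintro ⟨t, ht, rfl⟩
      refine ⟨ht, ?_⟩
      rw [h]
      rintro n (rfl | hn)
      · exact ⟨huA.1, by rw [inner_add_right, real_inner_smul_right, hug, huA.2]; ring⟩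
      · rw [mem_singleton_iff.1 hn]
        exact ⟨hvA.1, by rw [inner_add_right, real_inner_smul_right, hvg, hvA.2]; ring⟩
  obtain ⟨S, hS⟩ : ∃ S : Set ℝ, S = {t : ℝ | y + t • g ∈ P.body} := ⟨_, rfl⟩
  have hSc : IsCompact S := by
    have h1 : Isometry fun t : ℝ => y + t • g := by
      refine Isometry.of_dist_eq fun s t => ?_
      rw [dist_add_left, dist_eq_norm, ← sub_smul, norm_smul, hg, mul_one, dist_eq_norm]
    have h2 : S = (fun t : ℝ => y + t • g) ⁻¹' P.body := hS
    rw [h2]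
    exact h1.isClosedEmbedding.isCompact_preimage body_compactS
  have hSconv : Convex ℝ S := by
    rw [hS]
    intro s hs t ht a b ha hb hab
    have h1 := body_convexS (P := P) hs ht ha hb hab
    have h2 : a • (y + s • g) + b • (y + t • g) = y + (a • s + b • t) • g := by
      have h3 : y = a • y + b • y := by rw [← add_smul, hab, one_smul]
      conv_rhs => rw [h3]
      simp only [smul_eq_mul]
      module
    rw [h2] at h1
    exact h1
  have hSne : S.Nonempty := ⟨0, by rw [hS]; simpa using hy⟩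
  have hIcc := eq_Icc_of_connected_compact ⟨hSne, hSconv.isPreconnected⟩ hSc
  refine ⟨(2 : ℝ) • y + (sInf S + sSup S) • g, fun z hz => ?_⟩
  obtain ⟨t, ht, rfl⟩ := (hmf z).1 hz
  have htS : t ∈ S := by rw [hS]; exact ht
  have h1 : sInf S + sSup S - t ∈ S := by
    rw [hIcc] at htS ⊢
    obtain ⟨h2, h3⟩ := htS
    have e1 : sInf (Icc (sInf S) (sSup S)) = sInf S := by rw [← hIcc]
    have e2 : sSup (Icc (sInf S) (sSup S)) = sSup S := by rw [← hIcc]
    rw [e1, e2]
    exact ⟨by linarith, by linarith⟩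
  refine (hmf _).2 ⟨sInf S + sSup S - t, ?_, ?_⟩
  · have h4 : ∀ r : ℝ, r ∈ S → y + r • g ∈ P.body := by
      intro r hr
      rw [hS] at hr
      exact hr
    exact h4 _ h1
  · module

end Pool.FF25
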