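import Pool.Agent.FF24.Defs
import Pool.Agent.PT56.HRep

set_option autoImplicit false

/-!
# FF25/Conv: every convex polytope with interior points is the body of an `HPoly`, whose normals are exactly
the unit normals of the facets

`conv`: `P.body = convexHull V`; `u ∈ P.N` iff `‖u‖ = 1` and the face of the body in direction `u` has dimension
`dim E - 1`.
-/

open Set Metric Filter Topology
open scoped RealInnerProductSpace

namespace Pool.FF25

open Pool.FF24 Pool.PT56

variable {E : Type} [NormedAddCommGroup E] [InnerProductSpace ℝ E]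

/-- the face in direction `u` -/
def fce (K : Set E) (u : E) : Set E := {x | x ∈ K ∧ ∀ y ∈ K, ⟪u, y⟫ ≤ ⟪u, x⟫}

/-- unit normal of a facet -/
def IsFacetNormal (K : Set E) (u : E) : Prop :=
  ‖u‖ = 1 ∧ Module.finrank ℝ (vectorSpan ℝ (fce K u)) + 1 = Module.finrank ℝ E

/-- interior points satisfy the inequalities strictly -/
theorem lt_spt' [FiniteDimensional ℝ E] {P : Set E} (hP : IsCompact P) {b : E} (hb : b ∈ interior P) {u : E}
    (hu : ‖u‖ = 1) : ⟪u, b⟫ < spt P u := by
  obtain ⟨δ, hδ, hball⟩ := Metric.isOpen_iff.mp isOpen_interior b hb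
  have h1 : b + (δ / 2) • u ∈ P := by
    apply interior_subset
    apply hball
    rw [Metric.mem_ball, dist_eq_norm, add_sub_cancel_left, norm_smul, Real.norm_of_nonneg
      (by positivity), hu]
    linarith
  have h2 := le_spt hP (u := u) h1
  rw [inner_add_right, inner_smul_right, real_inner_self_eq_norm_sq, hu] at h2
  linarith

theorem exists_min [FiniteDimensional ℝ E] {P : Set E} (hP : Polytope P) :
    ∃ U : Finset E, (∀ u ∈ U, ‖u‖ = 1) ∧ (∀ x, (∀ u ∈ U, ⟪u, x⟫ ≤ spt P u) → x ∈ P) ∧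
      ∀ W : Finset E, W ⊂ U → ∃ x, (∀ u ∈ W, ⟪u, x⟫ ≤ spt P u) ∧ x ∉ P := by
  obtain ⟨U0, h1, h2⟩ := hrep hP
  obtain ⟨U, hU, hmin⟩ := WellFounded.has_min
    (wellFounded_lt : WellFounded (fun a b : Finset E => a < b))
    {U | (∀ u ∈ U, ‖u‖ = 1) ∧ ∀ x, (∀ u ∈ U, ⟪u, x⟫ ≤ spt P u) → x ∈ P} ⟨U0, h1, h2⟩
  refine ⟨U, hU.1, hU.2, fun W hW => ?_⟩
  by_contra hcon
  push Not at hcon
  exact hmin W ⟨fun u hu => hU.1 u (hW.1 hu), hcon⟩ hW

/-- a polytope as an `HPoly` -/
theorem exists_hpoly [FiniteDimensional ℝ E] {K : Set E} (hK : Polytope K) :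
    ∃ P : HPoly E, P.body = K := by
  classical
  obtain ⟨U, hU1, hU2, hU3⟩ := exists_min hK
  have hKc := hK.isCompact'
  have hbody : {z : E | ∀ u ∈ U, ⟪u, z⟫ ≤ spt K u} = K := by
    ext z
    exact ⟨fun h => hU2 z h, fun h u _ => le_spt hKc h⟩
  obtain ⟨b, hb⟩ := hK.2
  have hbs : ∀ u ∈ U, ⟪u, b⟫ < spt K u := fun u hu => lt_spt' hKc hb (hU1 u hu)
  refine ⟨⟨U, spt K, hU1, ?_, ⟨b, hbs⟩, ?_⟩, hbody⟩
  · obtain ⟨r, hr⟩ := hKc.isBounded.subset_closedBall (0 : E)
    exact ⟨r, fun z hz => by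
      have := hr (hU2 z hz)
      rwa [mem_closedBall_zero_iff] at this⟩
  · intro u hu
    obtain ⟨x, hx1, hx2⟩ := hU3 _ (Finset.erase_ssubset hu)
    have hx3 : spt K u < ⟪u, x⟫ := by
      by_contra hcon
      push Not at hcon
      refine hx2 (hU2 x fun v hv => ?_)
      by_cases h : v = u
      · rw [h]
        exact hcon
      · exact hx1 v (Finset.mem_erase.mpr ⟨h, hv⟩)
    have hb1 := hbs u hu
    have hden : 0 < ⟪u, x⟫ - ⟪u, b⟫ := by linarith
    set l := (⟪u, x⟫ - spt K u) / (⟪u, x⟫ - ⟪u, b⟫) with hl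
    have hl0 : 0 < l := div_pos (by linarith) hden
    have hl1 : l < 1 := by
      rw [hl, div_lt_one hden]
      linarith
    have hle : l * (⟪u, x⟫ - ⟪u, b⟫) = ⟪u, x⟫ - spt K u := by
      rw [hl]
      field_simp
    have hin : ∀ v : E, ⟪v, (1 - l) • x + l • b⟫ = (1 - l) * ⟪v, x⟫ + l * ⟪v, b⟫ := fun v => by
      rw [inner_add_right, inner_smul_right, inner_smul_right]
    have hzu : ⟪u, (1 - l) • x + l • b⟫ = spt K u := by
      rw [hin]
      linarith
    have hlt : ∀ v ∈ U, v ≠ u → ⟪v, (1 - l) • x + l • b⟫ < spt K v := by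
      intro v hv hvu
      rw [hin]
      have h1 := hx1 v (Finset.mem_erase.mpr ⟨hvu, hv⟩)
      have h2 := hbs v hv
      nlinarith
    refine ⟨(1 - l) • x + l • b, fun v hv => ?_, fun v hv => ⟨fun h => ?_, fun h => ?_⟩⟩
    · by_cases h : v = u
      · rw [h, hzu]
      · exact (hlt v hv h).le
    · by_contra hvu
      exact (hlt v hv hvu).ne h
    · rw [h, hzu]

/-! ### The facets of the body of an `HPoly` -/

theorem fce_eq {P : HPoly E} {u : E} (hu : u ∈ P.N) : fce P.body u = P.fc u := by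
  obtain ⟨z, hz1, hz2⟩ := P.real u hu
  have hzu := (hz2 u hu).2 rfl
  ext x
  constructor
  · rintro ⟨hx, hmax⟩
    refine ⟨hx, le_antisymm (hx u hu) ?_⟩
    have := hmax z hz1
    rwa [hzu] at this
  · rintro ⟨hx, hxu⟩
    exact ⟨hx, fun y hy => by rw [hxu]; exact hy u hu⟩

/-- near a point of the relative interior of a facet -/
theorem near_real {P : HPoly E} {u z : E} (hz1 : ∀ v ∈ P.N, ⟪v, z⟫ ≤ P.h v)
    (hz2 : ∀ v ∈ P.N, (⟪v, z⟫ = P.h v ↔ v = u)) :
    ∃ s > 0, ∀ w : E, ‖w‖ < s → ⟪u, w⟫ = 0 → z + w ∈ P.body := by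
  have h1 : ∀ᶠ w in 𝓝 (0 : E), ∀ v ∈ P.N, v ≠ u → ⟪v, z + w⟫ < P.h v := by
    rw [Filter.eventually_all_finset]
    intro v hv
    by_cases h : v = u
    · exact Filter.Eventually.of_forall fun _ h' => absurd h h'
    · have h2 : ⟪v, z + 0⟫ < P.h v := by
        rw [add_zero]
        exact lt_of_le_of_ne (hz1 v hv) fun he => h ((hz2 v hv).1 he)
      have h3 : Continuous fun w : E => ⟪v, z + w⟫ := by fun_prop
      filter_upwards [h3.continuousAt.eventually_lt_const h2] with w hw _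
      exact hw
  obtain ⟨s, hs, hball⟩ := Metric.eventually_nhds_iff.1 h1
  refine ⟨s, hs, fun w hw huw v hv => ?_⟩
  by_cases h : v = u
  · subst h
    rw [inner_add_right, huw, add_zero]
    exact hz1 v hv
  · exact (hball (by rwa [dist_zero_right]) v hv h).le

theorem span_le_orth {F : Set E} {v : E} {c : ℝ} (h : ∀ x ∈ F, ⟪v, x⟫ = c) :
    vectorSpan ℝ F ≤ (ℝ ∙ v)ᗮ := by
  rw [vectorSpan_def, Submodule.span_le]
  rintro _ ⟨x, hx, y, hy, rfl⟩
  rw [SetLike.mem_coe, Submodule.mem_orthogonal_singleton_iff_inner_right]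
  change ⟪v, x - y⟫ = 0
  rw [inner_sub_right, h x hx, h y hy, sub_self]

theorem span_fc [FiniteDimensional ℝ E] {P : HPoly E} {u : E} (hu : u ∈ P.N) :
    vectorSpan ℝ (P.fc u) = (ℝ ∙ u)ᗮ := by
  obtain ⟨z, hz1, hz2⟩ := P.real u hu
  have hzu := (hz2 u hu).2 rfl
  obtain ⟨s, hs, hnear⟩ := near_real hz1 hz2
  apply le_antisymm
  · exact span_le_orth fun x hx => hx.2
  · intro w hw
    rw [Submodule.mem_orthogonal_singleton_iff_inner_right] at hw
    have h0 : (0 : ℝ) < ‖w‖ + 1 := by positivity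
    set c : ℝ := s / (2 * (‖w‖ + 1)) with hc
    have hc0 : 0 < c := by positivity
    have h1 : ‖c • w‖ < s := by
      rw [norm_smul, Real.norm_of_nonneg hc0.le, hc, div_mul_eq_mul_div, div_lt_iff₀ (by positivity)]
      nlinarith [norm_nonneg w]
    have h2 : ⟪u, c • w⟫ = 0 := by rw [inner_smul_right, hw, mul_zero]
    have h3 := hnear _ h1 h2
    have h4 : z + c • w ∈ P.fc u := ⟨h3, by rw [inner_add_right, h2, add_zero, hzu]⟩
    have h5 : z ∈ P.fc u := ⟨hz1, hzu⟩
    have h6 := vsub_mem_vectorSpan ℝ h4 h5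
    rw [vsub_eq_sub, add_sub_cancel_left] at h6
    have h7 := Submodule.smul_mem _ c⁻¹ h6
    rwa [smul_smul, inv_mul_cancel₀ hc0.ne', one_smul] at h7

theorem finrank_orth [FiniteDimensional ℝ E] {u : E} (hu : ‖u‖ = 1) :
    Module.finrank ℝ ((ℝ ∙ u)ᗮ : Submodule ℝ E) + 1 = Module.finrank ℝ E := by
  have h0 : u ≠ 0 := by
    rintro rfl
    simp at hu
  have h1 := Submodule.finrank_add_finrank_orthogonal (ℝ ∙ u)
  rw [finrank_span_singleton h0] at h1
  omega

/-- a point of the relative interior can be passed -/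
theorem rel_pass {F : Set E} {z : E} (hz : z ∈ intrinsicInterior ℝ F) {x : E} (hx : x ∈ F) :
    ∃ s : ℝ, 0 < s ∧ z + s • (z - x) ∈ F := by
  obtain ⟨z', hz', rfl⟩ := mem_intrinsicInterior.1 hz
  have hzF : (z' : E) ∈ F := interior_subset (s := ((↑) ⁻¹' F : Set (affineSpan ℝ F))) hz'
  have hmem : ∀ s : ℝ, (z' : E) + s • ((z' : E) - x) ∈ affineSpan ℝ F := by
    intro s
    have h1 := AffineMap.lineMap_mem (-s) (z'.2) (subset_affineSpan ℝ F hx)
    have h2 : AffineMap.lineMap (z' : E) x (-s) = (z' : E) + s • ((z' : E) - x) := by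
      rw [AffineMap.lineMap_apply_module']
      module
    rwa [h2] at h1
  have hcont : Continuous fun s : ℝ => (⟨(z' : E) + s • ((z' : E) - x), hmem s⟩ : affineSpan ℝ F) :=
    Continuous.subtype_mk (by fun_prop) _
  have h0 : (⟨(z' : E) + (0 : ℝ) • ((z' : E) - x), hmem 0⟩ : affineSpan ℝ F) = z' := by
    ext
    simp
  have h1 : ∀ᶠ s in 𝓝 (0 : ℝ),
      (⟨(z' : E) + s • ((z' : E) - x), hmem s⟩ : affineSpan ℝ F) ∈
        interior ((↑) ⁻¹' F : Set (affineSpan ℝ F)) := by
    have := hcont.tendsto 0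
    rw [h0] at this
    exact this (isOpen_interior.mem_nhds hz')
  obtain ⟨s, hs, hball⟩ := Metric.eventually_nhds_iff.1 h1
  refine ⟨s / 2, half_pos hs, ?_⟩
  have h2 := hball (show dist (s / 2) 0 < s by
    rw [dist_zero_right, Real.norm_of_nonneg (by positivity)]
    linarith)
  exact interior_subset (s := ((↑) ⁻¹' F : Set (affineSpan ℝ F))) h2

theorem body_convex' {P : HPoly E} : Convex ℝ P.body := by
  intro x hx y hy a b ha hb hab v hv
  rw [inner_add_right, inner_smul_right, inner_smul_right]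
  have h1 := hx v hv
  have h2 := hy v hv
  have h3 : P.h v = a * P.h v + b * P.h v := by rw [← add_mul, hab, one_mul]
  nlinarith [mul_le_mul_of_nonneg_left h1 ha, mul_le_mul_of_nonneg_left h2 hb]

theorem fce_convex {K : Set E} (hK : Convex ℝ K) (u : E) : Convex ℝ (fce K u) := by
  intro x hx y hy a b ha hb hab
  refine ⟨hK hx.1 hy.1 ha hb hab, fun w hw => ?_⟩
  rw [inner_add_right, inner_smul_right, inner_smul_right]
  have h1 := hx.2 w hw
  have h2 := hy.2 w hw
  have h3 : ⟪u, w⟫ = a * ⟪u, w⟫ + b * ⟪u, w⟫ := by rw [← add_mul, hab, one_mul]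
  nlinarith [mul_le_mul_of_nonneg_left h1 ha, mul_le_mul_of_nonneg_left h2 hb]

/-- the normals of an `HPoly` are exactly the unit normals of the facets of its body -/
theorem mem_N_iff [FiniteDimensional ℝ E] (P : HPoly E) (hE : 2 ≤ Module.finrank ℝ E) (u : E) :
    u ∈ P.N ↔ IsFacetNormal P.body u := by
  constructor
  · intro hu
    refine ⟨P.unit u hu, ?_⟩
    rw [fce_eq hu, span_fc hu]
    exact finrank_orth (P.unit u hu)
  · rintro ⟨hu1, hdim⟩
    -- the face is nonempty
    have hne : (fce P.body u).Nonempty := by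
      by_contra hcon
      rw [Set.not_nonempty_iff_eq_empty] at hcon
      rw [hcon, vectorSpan_empty, finrank_bot] at hdim
      omega
    have hconv := fce_convex (body_convex' (P := P)) u
    obtain ⟨z, hz⟩ := hne.intrinsicInterior hconv
    have hzF : z ∈ fce P.body u := intrinsicInterior_subset hz
    -- some facet contains `z`
    have hact : ∃ v ∈ P.N, ⟪v, z⟫ = P.h v := by
      by_contra hcon
      push Not at hcon
      have h1 : ∀ᶠ s in 𝓝 (0 : ℝ), ∀ v ∈ P.N, ⟪v, z + s • u⟫ < P.h v := by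
        rw [Filter.eventually_all_finset]
        intro v hv
        have h2 : ⟪v, z + (0 : ℝ) • u⟫ < P.h v := by
          rw [zero_smul, add_zero]
          exact lt_of_le_of_ne (hzF.1 v hv) (hcon v hv)
        have h3 : Continuous fun s : ℝ => ⟪v, z + s • u⟫ := by fun_prop
        exact h3.continuousAt.eventually_lt_const h2
      obtain ⟨s, hs, hball⟩ := Metric.eventually_nhds_iff.1 h1
      have h4 : z + (s / 2) • u ∈ P.body := fun v hv => (hball (show dist (s / 2) 0 < s by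
        rw [dist_zero_right, Real.norm_of_nonneg (by positivity)]
        linarith) v hv).le
      have h5 := hzF.2 _ h4
      rw [inner_add_right, inner_smul_right, real_inner_self_eq_norm_sq, hu1] at h5
      linarith
    obtain ⟨v, hv, hvz⟩ := hact
    -- the whole face is in the facet `v`
    have hFv : ∀ x ∈ fce P.body u, ⟪v, x⟫ = P.h v := by
      intro x hx
      obtain ⟨s, hs, hsx⟩ := rel_pass hz hx
      have h1 := hsx.1 v hv
      rw [inner_add_right, inner_smul_right, inner_sub_right, hvz] at h1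
      have h2 := hx.1 v hv
      have h3 : s * (P.h v - ⟪v, x⟫) ≤ 0 := by linarith
      have h4 : P.h v - ⟪v, x⟫ ≤ 0 := by
        by_contra hcon
        push Not at hcon
        linarith [mul_pos hs hcon]
      linarith
    have hFu : ∀ x ∈ fce P.body u, ⟪u, x⟫ = ⟪u, z⟫ := fun x hx =>
      le_antisymm (hzF.2 x hx.1) (hx.2 z hzF.1)
    have hsub1 : vectorSpan ℝ (fce P.body u) ≤ (ℝ ∙ u)ᗮ := span_le_orth hFu
    have hsub2 : vectorSpan ℝ (fce P.body u) ≤ (ℝ ∙ v)ᗮ := span_le_orth hFv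
    have e1 : vectorSpan ℝ (fce P.body u) = (ℝ ∙ u)ᗮ :=
      Submodule.eq_of_le_of_finrank_eq hsub1 (by have := finrank_orth hu1; omega)
    have e2 : vectorSpan ℝ (fce P.body u) = (ℝ ∙ v)ᗮ :=
      Submodule.eq_of_le_of_finrank_eq hsub2 (by have := finrank_orth (P.unit v hv); omega)
    have e3 : (ℝ ∙ u) = (ℝ ∙ v) := by
      rw [← Submodule.orthogonal_orthogonal (ℝ ∙ u), ← Submodule.orthogonal_orthogonal (ℝ ∙ v),
        ← e1, ← e2]
    have hvu : v ∈ (ℝ ∙ u) := e3 ▸ Submodule.mem_span_singleton_self v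
    obtain ⟨c, rfl⟩ := Submodule.mem_span_singleton.1 hvu
    have hc : ‖c • u‖ = 1 := P.unit _ hv
    rw [norm_smul, hu1, mul_one, Real.norm_eq_abs] at hc
    rcases (abs_eq zero_le_one).1 hc with h | h
    · rw [h, one_smul] at hv
      exact hv
    · exfalso
      subst h
      obtain ⟨b, hb⟩ := P.int
      have h1 := hb _ hv
      have h2 := hzF.2 b fun w hw => (hb w hw).le
      rw [← hvz] at h1
      simp only [inner_smul_left] at h1
      simp at h1
      linarith

/-- **Conversion.** -/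
theorem conv [FiniteDimensional ℝ E] (hE : 2 ≤ Module.finrank ℝ E) {V : Set E} (hV : V.Finite)
    (hint : (interior (convexHull ℝ V)).Nonempty) :
    ∃ P : HPoly E, P.body = convexHull ℝ V ∧
      ∀ u, u ∈ P.N ↔ IsFacetNormal (convexHull ℝ V) u := by
  obtain ⟨P, hP⟩ := exists_hpoly (K := convexHull ℝ V) ⟨⟨V, hV, rfl⟩, hint⟩
  exact ⟨P, hP, fun u => by rw [← hP]; exact mem_N_iff P hE u⟩

end Pool.FF25
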