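import Pool.Agent.FF25.Step
import Pool.Agent.FF79.NecES48

set_option autoImplicit false

/-!
# FF25/LemA: Lemma A of note 3601

`lemA`: `P` has a facet-to-facet tiling by tiles `± P + t`; `y` is a relative interior point of a ridge with the normals
`u`, `v`; `ν ≠ 0` lies in the plane of `u` and `v`. Then there is a ridge point `y'` whose normals span the same plane,
whose ridge is a translate of `±` the ridge of `y`, and `y'` maximises or minimises `ν` over the polytope.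
Proof: the tile `τ`, the tile behind its facet `u` and the tile behind its facet `v` are three different tiles around
`p = X τ y`. Let `x ≠ 0` be the vector of the plane orthogonal to `ν`. If the wedge of a tile at `p` does not lie on one
side of `ν`, then `p + η x` or `p - η x` is in its interior for small `η`: this is possible for at most two of the three
tiles.
-/

open Set Metric Filter Topology
open scoped RealInnerProductSpace

namespace Pool.FF25

open Pool.FF24 Pool.FF38 Pool.FF56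

variable {E : Type*} [NormedAddCommGroup E] [InnerProductSpace ℝ E] {P : HPoly E}

/-- a tile at `p`: `ν` is maximal or minimal at its own point, or one of the two directions `± x` goes into its
interior -/
theorem one_tile {σ : ℝ × E} (hσ : σ.1 = 1 ∨ σ.1 = -1) {p w₁ w₂ ν x : E} (hp : crd σ p ∈ P.body)
    (hact : P.act (crd σ p) = {w₁, w₂}) {α β γ δ : ℝ} (hν : ν = α • w₁ + β • w₂)
    (hx : x = γ • w₁ + δ • w₂) (hx0 : x ≠ 0) (hνx : ⟪ν, x⟫ = 0) :
    ((∀ z ∈ P.body, ⟪ν, z⟫ ≤ ⟪ν, crd σ p⟫) ∨ (∀ z ∈ P.body, ⟪ν, crd σ p⟫ ≤ ⟪ν, z⟫)) ∨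
    (∃ η₀ > 0, ∀ η : ℝ, 0 < η → η < η₀ → p + η • x ∈ interior (X σ '' P.body)) ∨
    (∃ η₀ > 0, ∀ η : ℝ, 0 < η → η < η₀ → p + η • (-x) ∈ interior (X σ '' P.body)) := by
  have hA1 : w₁ ∈ P.act (crd σ p) := by rw [hact]; simp
  have hA2 : w₂ ∈ P.act (crd σ p) := by rw [hact]; simp
  have hσ0 : σ.1 ≠ 0 := by
    rcases hσ with h | h <;> rw [h] <;> norm_num
  obtain ⟨s₁, hs1⟩ : ∃ s, s = ⟪σ.1 • w₁, x⟫ := ⟨_, rfl⟩
  obtain ⟨s₂, hs2⟩ : ∃ s, s = ⟪σ.1 • w₂, x⟫ := ⟨_, rfl⟩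
  have hs1' : s₁ = σ.1 * ⟪w₁, x⟫ := by rw [hs1, real_inner_smul_left]
  have hs2' : s₂ = σ.1 * ⟪w₂, x⟫ := by rw [hs2, real_inner_smul_left]
  have hrel : α * s₁ + β * s₂ = 0 := by
    rw [hs1', hs2']
    have h1 : α * ⟪w₁, x⟫ + β * ⟪w₂, x⟫ = 0 := by
      rw [hν, inner_add_left, real_inner_smul_left, real_inner_smul_left] at hνx
      exact hνx
    linear_combination σ.1 * h1
  have hnz : ¬ (s₁ = 0 ∧ s₂ = 0) := by
    rintro ⟨h1, h2⟩
    rw [hs1'] at h1
    rw [hs2'] at h2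
    have h3 := (mul_eq_zero.1 h1).resolve_left hσ0
    have h4 := (mul_eq_zero.1 h2).resolve_left hσ0
    apply hx0
    rw [← inner_self_eq_zero (𝕜 := ℝ)]
    nth_rewrite 1 [hx]
    rw [inner_add_left, real_inner_smul_left, real_inner_smul_left, h3, h4]
    ring
  by_cases hneg : s₁ < 0 ∧ s₂ < 0
  · right; left
    exact Pool.FF79.wedge_interior48 hσ hp hact (hs1 ▸ hneg.1) (hs2 ▸ hneg.2)
  by_cases hpos : 0 < s₁ ∧ 0 < s₂
  · right; right
    refine Pool.FF79.wedge_interior48 hσ hp hact ?_ ?_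
    · rw [inner_neg_right, ← hs1]; linarith [hpos.1]
    · rw [inner_neg_right, ← hs2]; linarith [hpos.2]
  left
  -- `α` and `β` have the same sign
  have hab : (0 ≤ α ∧ 0 ≤ β) ∨ (α ≤ 0 ∧ β ≤ 0) := by
    have h1 : s₁ * s₂ ≤ 0 := by
      by_contra hcon
      push Not at hcon
      rcases pos_and_pos_or_neg_and_neg_of_mul_pos hcon with h | h
      · exact hpos h
      · exact hneg h
    have h2 : 0 ≤ α * β := by
      by_cases h10 : s₁ = 0
      · have h20 : s₂ ≠ 0 := fun h => hnz ⟨h10, h⟩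
        rw [h10, mul_zero, zero_add] at hrel
        rw [(mul_eq_zero.1 hrel).resolve_right h20, mul_zero]
      · have h3 : α * β * (s₁ * s₁) = -(β * β * (s₁ * s₂)) := by
          linear_combination β * s₁ * hrel
        have h4 : 0 ≤ α * β * (s₁ * s₁) := by
          rw [h3]
          have := mul_nonneg (mul_self_nonneg β) (neg_nonneg.2 h1)
          linarith
        have h5 : 0 < s₁ * s₁ := mul_self_pos.2 h10
        by_contra hcon
        push Not at hcon
        have := mul_neg_of_neg_of_pos hcon h5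
        linarith
    by_contra hcon
    push Not at hcon
    rcases lt_trichotomy α 0 with h | h | h
    · have h3 := hcon.2 h.le
      have := mul_neg_of_neg_of_pos h h3
      linarith
    · have h3 := hcon.1 h.ge
      have h4 := hcon.2 h.le
      linarith
    · have h3 := hcon.1 h.le
      have := mul_neg_of_pos_of_neg h h3
      linarith
  have hval : ∀ z ∈ P.body, ⟪w₁, z⟫ ≤ ⟪w₁, crd σ p⟫ ∧ ⟪w₂, z⟫ ≤ ⟪w₂, crd σ p⟫ := by
    intro z hz
    rw [hA1.2, hA2.2]
    exact ⟨hz w₁ hA1.1, hz w₂ hA2.1⟩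
  have hform : ∀ z : E, ⟪ν, z⟫ = α * ⟪w₁, z⟫ + β * ⟪w₂, z⟫ := by
    intro z
    rw [hν, inner_add_left, real_inner_smul_left, real_inner_smul_left]
  rcases hab with ⟨ha, hb⟩ | ⟨ha, hb⟩
  · left
    intro z hz
    rw [hform, hform]
    have h1 := mul_le_mul_of_nonneg_left (hval z hz).1 ha
    have h2 := mul_le_mul_of_nonneg_left (hval z hz).2 hb
    linarith
  · right
    intro z hz
    rw [hform, hform]
    have h1 := mul_le_mul_of_nonpos_left (hval z hz).1 ha
    have h2 := mul_le_mul_of_nonpos_left (hval z hz).2 hb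
    linarith

/-- the ridge of `y'` is parallel to the ridge of `y` and a translate of `±` it -/
structure Rel (P : HPoly E) (y y' u v u' v' : E) : Prop where
  body : y' ∈ P.body
  ne : u' ≠ v'
  act : P.act y' = {u', v'}
  span : Submodule.span ℝ {u', v'} = Submodule.span ℝ {u, v}
  mf : ∃ (e : ℝ) (c : E), (e = 1 ∨ e = -1) ∧ P.mf y' = (fun z => e • z + c) '' P.mf y

theorem Rel.refl {y u v : E} (hy : y ∈ P.body) (huv : u ≠ v) (h : P.act y = {u, v}) :
    Rel P y y u v u v where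
  body := hy
  ne := huv
  act := h
  span := rfl
  mf := ⟨1, 0, Or.inl rfl, by simp⟩

/-- the neighbour behind the facet `v` of the tile `τ`, seen from a point of the ridge of the facets `u`, `v` -/
theorem next {T : Set (ℝ × E)} (hT : IsFF P T) {τ : ℝ × E} (hτ : τ ∈ T) {y u v : E}
    (hy : y ∈ P.body) (huv : u ≠ v) (h : P.act y = {u, v}) :
    ∃ σ ∈ T, σ ≠ τ ∧ ∃ (v' w : E) (a b : ℝ), 0 < a ∧ σ.1 • v' = -(τ.1 • v) ∧
      σ.1 • w = a • (τ.1 • u) + b • (τ.1 • v) ∧ Rel P y (crd σ (X τ y)) u v v' w := by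
  have hvA : v ∈ P.act y := by rw [h]; simp
  obtain ⟨σ, hσ, hne, v', hm, hcr⟩ := cross hT hτ hvA.1
  obtain ⟨w, a, b, hact, hvw, ha, hw⟩ := act_step hm hy huv h
  have hss : σ.1 * σ.1 = 1 := by
    rcases hT.sign σ hσ with h | h <;> rw [h] <;> norm_num
  have htt : τ.1 * τ.1 = 1 := by
    rcases hT.sign τ hτ with h | h <;> rw [h] <;> norm_num
  have hyf : y ∈ P.fc v := ⟨hy, hvA.2⟩
  have he0 : σ.1 * τ.1 ≠ 0 := by
    intro h0
    have h1 : (σ.1 * τ.1) * (σ.1 * τ.1) = 1 := by linear_combination hss * (τ.1 * τ.1) + htt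
    rw [h0] at h1
    norm_num at h1
  have hee : (σ.1 * τ.1) * (σ.1 * τ.1) = 1 := by linear_combination hss * (τ.1 * τ.1) + htt
  refine ⟨σ, hσ, hne, v', w, a, b, ha, ?_, ?_, ?_⟩
  · rw [hm.nrm, smul_neg, smul_smul, ← mul_assoc, hss, one_mul]
  · rw [hw, smul_smul, ← mul_assoc, hss, one_mul, smul_add, smul_smul, smul_smul, smul_smul,
      smul_smul, mul_comm τ.1 a, mul_comm τ.1 b]
  · refine ⟨?_, hvw, ?_, ?_, σ.1 * τ.1, σ.1 • (τ.2 - σ.2), hm.sgn, ?_⟩
    · rw [hcr]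
      exact ((hm.iff y).1 hyf).1
    · rw [hcr]
      exact hact
    · have hv'mem : v' ∈ Submodule.span ℝ ({u, v} : Set E) := by
        rw [hm.nrm, Submodule.mem_span_pair]
        exact ⟨0, -(σ.1 * τ.1), by rw [zero_smul, zero_add, neg_smul]⟩
      have hwmem : w ∈ Submodule.span ℝ ({u, v} : Set E) := by
        rw [hw, smul_add, smul_smul, smul_smul, Submodule.mem_span_pair]
        exact ⟨_, _, rfl⟩
      have hvmem : v ∈ Submodule.span ℝ ({v', w} : Set E) := by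
        rw [Submodule.mem_span_pair]
        refine ⟨-(σ.1 * τ.1), 0, ?_⟩
        rw [hm.nrm, zero_smul, add_zero, neg_smul, smul_neg, neg_neg, smul_smul, hee, one_smul]
      have humem : u ∈ Submodule.span ℝ ({v', w} : Set E) := by
        have h1 : u = a⁻¹ • ((σ.1 * τ.1) • w - b • v) := by
          rw [hw, smul_smul, hee, one_smul, add_sub_cancel_right, smul_smul,
            inv_mul_cancel₀ ha.ne', one_smul]
        rw [h1]
        refine Submodule.smul_mem _ _ (Submodule.sub_mem _ (Submodule.smul_mem _ _ ?_)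
          (Submodule.smul_mem _ _ hvmem))
        exact Submodule.subset_span (by simp)
      refine le_antisymm (Submodule.span_le.2 ?_) (Submodule.span_le.2 ?_)
      · rintro z (rfl | rfl)
        · exact hv'mem
        · exact hwmem
      · rintro z (rfl | rfl)
        · exact humem
        · exact hvmem
    · rw [hcr]
      exact (mf_step hm hyf).symm

/-- two different tiles cannot both contain `p + η x` in their interiors for small `η` -/
theorem no_two {T : Set (ℝ × E)} (hT : IsFF P T) {σ₁ σ₂ : ℝ × E} (h₁ : σ₁ ∈ T) (h₂ : σ₂ ∈ T)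
    (hne : σ₁ ≠ σ₂) {p x : E}
    (hx₁ : ∃ η₀ > 0, ∀ η : ℝ, 0 < η → η < η₀ → p + η • x ∈ interior (X σ₁ '' P.body))
    (hx₂ : ∃ η₀ > 0, ∀ η : ℝ, 0 < η → η < η₀ → p + η • x ∈ interior (X σ₂ '' P.body)) : False := by
  obtain ⟨η₁, hη₁, h3⟩ := hx₁
  obtain ⟨η₂, hη₂, h4⟩ := hx₂
  obtain ⟨η, hη, hη'⟩ := exists_between (lt_min hη₁ hη₂)
  have h5 := h3 η hη (hη'.trans_le (min_le_left _ _))
  have h6 := h4 η hη (hη'.trans_le (min_le_right _ _))
  exact Set.disjoint_left.1 (hT.disj σ₁ h₁ σ₂ h₂ hne) h5 h6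

/-- LEMMA A -/
theorem lemA {T : Set (ℝ × E)} (hT : IsFF P T) {y u v ν : E} (hy : y ∈ P.body) (huv : u ≠ v)
    (h : P.act y = {u, v}) (hν : ν ∈ Submodule.span ℝ ({u, v} : Set E)) (hν0 : ν ≠ 0) :
    ∃ y' u' v' : E, Rel P y y' u v u' v' ∧
      ((∀ z ∈ P.body, ⟪ν, z⟫ ≤ ⟪ν, y'⟫) ∨ (∀ z ∈ P.body, ⟪ν, y'⟫ ≤ ⟪ν, z⟫)) := by
  obtain ⟨τ, hτ, -⟩ := hT.cover 0
  have hts := hT.sign τ hτ
  have huA : u ∈ P.act y := by rw [h]; simp
  have hvA : v ∈ P.act y := by rw [h]; simp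
  have hli := act_pair hy huA hvA huv
  rw [LinearIndependent.pair_iff] at hli
  have ht0 : τ.1 ≠ 0 := by
    rcases hts with h | h <;> rw [h] <;> norm_num
  have hcry : crd τ (X τ y) = y := crd_X hts y
  -- the two neighbours
  obtain ⟨σ₁, h1, hne1, v₁, w₁, a₁, b₁, ha1, hv1, hw1, hr1⟩ := next hT hτ hy huv h
  obtain ⟨σ₂, h2, hne2, v₂, w₂, a₂, b₂, ha2, hv2, hw2, hr2⟩ :=
    next hT hτ hy huv.symm (by rw [h, Set.pair_comm])
  have hr2' : Rel P y (crd σ₂ (X τ y)) u v v₂ w₂ :=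
    ⟨hr2.body, hr2.ne, hr2.act, by rw [hr2.span, Set.pair_comm], hr2.mf⟩
  have hne12 : σ₁ ≠ σ₂ := by
    rintro rfl
    have h3 : v₁ ∈ P.act (crd σ₁ (X τ y)) := by rw [hr1.act]; simp
    rw [hr2.act] at h3
    rcases h3 with h3 | h3
    · rw [h3, hv2] at hv1
      have h4 : (-τ.1) • u + τ.1 • v = 0 := by
        rw [neg_smul, hv1]
        abel
      exact ht0 (hli _ _ h4).2
    · rw [mem_singleton_iff.1 h3, hw2] at hv1
      have h4 : (b₂ * τ.1) • u + ((a₂ + 1) * τ.1) • v = 0 := by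
        rw [add_mul, one_mul, add_smul, mul_smul, mul_smul]
        rw [eq_neg_iff_add_eq_zero] at hv1
        rw [← hv1]
        abel
      have h5 := (hli _ _ h4).2
      rcases mul_eq_zero.1 h5 with h6 | h6
      · linarith
      · exact ht0 h6
  -- the direction `x`
  obtain ⟨x, hx⟩ : ∃ x : E, x = ⟪ν, v⟫ • u - ⟪ν, u⟫ • v := ⟨_, rfl⟩
  have hνx : ⟪ν, x⟫ = 0 := by
    rw [hx, inner_sub_right, real_inner_smul_right, real_inner_smul_right]
    ring
  have hx0 : x ≠ 0 := by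
    intro h0
    have h3 : ⟪ν, v⟫ • u + (-⟪ν, u⟫) • v = 0 := by
      rw [neg_smul, ← sub_eq_add_neg, ← hx]
      exact h0
    obtain ⟨h4, h5⟩ := hli _ _ h3
    obtain ⟨α, β, hαβ⟩ := Submodule.mem_span_pair.1 hν
    apply hν0
    rw [← inner_self_eq_zero (𝕜 := ℝ)]
    nth_rewrite 2 [← hαβ]
    rw [inner_add_right, real_inner_smul_right, real_inner_smul_right, h4]
    rw [neg_eq_zero] at h5
    rw [h5]
    ring
  have hxs : x ∈ Submodule.span ℝ ({u, v} : Set E) := by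
    rw [hx, sub_eq_add_neg, ← neg_smul]
    exact Submodule.mem_span_pair.2 ⟨_, _, rfl⟩
  -- the three tiles
  have key : ∀ σ : ℝ × E, (σ.1 = 1 ∨ σ.1 = -1) → ∀ u' v' : E,
      Rel P y (crd σ (X τ y)) u v u' v' →
      (∃ y' u' v' : E, Rel P y y' u v u' v' ∧
        ((∀ z ∈ P.body, ⟪ν, z⟫ ≤ ⟪ν, y'⟫) ∨ (∀ z ∈ P.body, ⟪ν, y'⟫ ≤ ⟪ν, z⟫))) ∨
      (∃ η₀ > 0, ∀ η : ℝ, 0 < η → η < η₀ → X τ y + η • x ∈ interior (X σ '' P.body)) ∨
      (∃ η₀ > 0, ∀ η : ℝ, 0 < η → η < η₀ → X τ y + η • (-x) ∈ interior (X σ '' P.body)) := by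
    intro σ hσ u' v' hr
    obtain ⟨α, β, h3⟩ := Submodule.mem_span_pair.1 (hr.span ▸ hν)
    obtain ⟨γ, δ, h4⟩ := Submodule.mem_span_pair.1 (hr.span ▸ hxs)
    rcases one_tile hσ hr.body hr.act h3.symm h4.symm hx0 hνx with h5 | h5 | h5
    · left
      exact ⟨_, u', v', hr, h5⟩
    · right; left
      exact h5
    · right; right
      exact h5
  rcases key τ hts u v (by rw [hcry]; exact Rel.refl hy huv h) with h0 | h0
  · exact h0
  rcases key σ₁ (hT.sign σ₁ h1) v₁ w₁ hr1 with h3 | h3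
  · exact h3
  rcases key σ₂ (hT.sign σ₂ h2) v₂ w₂ hr2' with h4 | h4
  · exact h4
  exfalso
  rcases h0 with h0 | h0 <;> rcases h3 with h3 | h3 <;> rcases h4 with h4 | h4
  · exact no_two hT hτ h1 hne1.symm h0 h3
  · exact no_two hT hτ h1 hne1.symm h0 h3
  · exact no_two hT hτ h2 hne2.symm h0 h4
  · exact no_two hT h1 h2 hne12 h3 h4
  · exact no_two hT h1 h2 hne12 h3 h4
  · exact no_two hT hτ h2 hne2.symm h0 h4
  · exact no_two hT hτ h1 hne1.symm h0 h3
  · exact no_two hT hτ h1 hne1.symm h0 h3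

end Pool.FF25
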