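import Pool.Agent.FF38.ActTwo
import Pool.Agent.FF56.Auto
import Pool.Agent.FF24.Face

set_option autoImplicit false

/-!
# FF25/Step: one step around a ridge for a single crossing (no gluing data for the whole polytope)

`Mv P e c v v'`: the map `z ↦ e • z + c` maps the facet `v` onto the facet `v'` and `v' = - e v`.
`act_step`: the version of `FF24.act_two` for one such map. `mf_step`: the minimal face is mapped to the minimal face.
`cross`: crossing a facet of a tile of a facet-to-facet tiling gives such a map of own coordinates.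
-/

open Set Metric Filter Topology
open scoped RealInnerProductSpace

namespace Pool.FF25

open Pool.FF24 Pool.FF38 Pool.FF56

variable {E : Type*} [NormedAddCommGroup E] [InnerProductSpace ℝ E] {P : HPoly E}

/-- the map `z ↦ e • z + c` maps the facet `v` onto the facet `v'`, and the outer normals are opposite -/
structure Mv (P : HPoly E) (e : ℝ) (c v v' : E) : Prop where
  sgn : e = 1 ∨ e = -1
  mem : v ∈ P.N
  mem' : v' ∈ P.N
  nrm : v' = -(e • v)
  iff : ∀ z, z ∈ P.fc v ↔ e • z + c ∈ P.fc v'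

theorem act_step {e : ℝ} {c v v' u y : E} (hm : Mv P e c v v') (hy : y ∈ P.body) (huv : u ≠ v)
    (h : P.act y = {u, v}) :
    ∃ (w : E) (a b : ℝ), P.act (e • y + c) = {v', w} ∧ v' ≠ w ∧ 0 < a ∧
      w = e • (a • u + b • v) := by
  classical
  have huA : u ∈ P.act y := by rw [h]; simp
  have hvA : v ∈ P.act y := by rw [h]; simp
  have hvN : v ∈ P.N := hvA.1
  have hli := act_pair hy huA hvA huv
  rw [LinearIndependent.pair_iff] at hli
  have hv1 : ‖v‖ = 1 := P.unit v hvN
  have hvv : ⟪v, v⟫ = 1 := by rw [real_inner_self_eq_norm_sq, hv1]; norm_num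
  set u1 : E := u - ⟪u, v⟫ • v with hu1
  have hu10 : u1 ≠ 0 := by
    intro h0
    have h1 := hli 1 (-⟪u, v⟫) (by rw [one_smul, neg_smul, ← sub_eq_add_neg]; exact h0)
    exact one_ne_zero h1.1
  have hD : 0 < ⟪u1, u1⟫ := real_inner_self_pos.2 hu10
  have hvu1 : ⟪v, u1⟫ = 0 := by
    rw [hu1, inner_sub_right, inner_smul_right, hvv, real_inner_comm]
    ring
  have huu1 : ⟪u, u1⟫ = ⟪u1, u1⟫ := by
    have h1 : u = u1 + ⟪u, v⟫ • v := by rw [hu1]; abel
    conv_lhs => rw [h1]
    rw [inner_add_left, inner_smul_left, hvu1]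
    simp
  have hst := hm.nrm
  have hee : e * e = 1 := by
    rcases hm.sgn with rfl | rfl <;> norm_num
  have he0 : e ≠ 0 := by
    intro h0
    rw [h0] at hee
    norm_num at hee
  have hyf : y ∈ P.fc v := ⟨hy, hvA.2⟩
  have hy' : e • y + c ∈ P.fc v' := (hm.iff y).1 hyf
  have hshift : ∀ (s : ℝ) (x : E), e • (y + s • x) + c = (e • y + c) + (s * e) • x := by
    intro s x
    rw [smul_add, smul_smul, mul_comm e s]
    abel
  have hA : ∀ w ∈ P.act (e • y + c), ∀ x, ⟪v, x⟫ = 0 → ⟪u, x⟫ ≤ 0 → e * ⟪w, x⟫ ≤ 0 := by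
    intro w hw x hvx hux
    obtain ⟨s, hs, hsb⟩ := tangent (x := x) hy (by
      intro w' hw'
      rw [h] at hw'
      rcases hw' with rfl | hw'
      · exact hux
      · rw [mem_singleton_iff.1 hw']
        exact hvx.le)
    have h1 : y + s • x ∈ P.fc v := ⟨hsb, by
      rw [inner_add_right, inner_smul_right, hvx, hvA.2]; ring⟩
    have h2 := ((hm.iff _).1 h1).1 w hw.1
    rw [hshift, inner_add_right, inner_smul_right, hw.2] at h2
    have h3 : s * (e * ⟪w, x⟫) ≤ 0 := by linarith [mul_assoc s e ⟪w, x⟫]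
    by_contra hcon
    push Not at hcon
    have := mul_pos hs hcon
    linarith
  have hB : ∀ x, ⟪v, x⟫ = 0 → (∀ w ∈ P.act (e • y + c), e * ⟪w, x⟫ ≤ 0) → ⟪u, x⟫ ≤ 0 := by
    intro x hvx hx
    obtain ⟨s, hs, hsb⟩ := tangent (x := e • x) hy'.1 (by
      intro w hw
      rw [inner_smul_right]
      exact hx w hw)
    rw [smul_smul, ← hshift] at hsb
    have h1 : e • (y + s • x) + c ∈ P.fc v' := by
      refine ⟨hsb, ?_⟩
      rw [hshift, inner_add_right, inner_smul_right, hy'.2, hst, inner_neg_left, inner_smul_left,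
        hvx]
      simp
    have h2 := (hm.iff _).2 h1
    have h3 := h2.1 u huA.1
    rw [inner_add_right, inner_smul_right, huA.2] at h3
    by_contra hcon
    push Not at hcon
    have := mul_pos hs hcon
    linarith
  have hspan : ∀ w ∈ P.act (e • y + c), ∃ a b : ℝ, w = a • u + b • v ∧ 0 ≤ e * a := by
    intro w hw
    obtain ⟨a, b, hab⟩ := in_span (w := w) hv1 hD (by
      intro x hux hvx
      have h1 := hA w hw x hvx hux.le
      have h2 := hA w hw (-x) (by rw [inner_neg_right, hvx, neg_zero])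
        (by rw [inner_neg_right, hux, neg_zero])
      rw [inner_neg_right] at h2
      have h3 : e * ⟪w, x⟫ = 0 := by linarith [mul_neg e ⟪w, x⟫]
      exact (mul_eq_zero.1 h3).resolve_left he0)
    refine ⟨a, b, hab, ?_⟩
    have h1 := hA w hw (-u1) (by rw [inner_neg_right, hvu1, neg_zero])
      (by rw [inner_neg_right, huu1]; linarith)
    rw [inner_neg_right, hab, inner_add_left, inner_smul_left, inner_smul_left, hvu1, huu1] at h1
    simp only [conj_trivial, mul_zero, add_zero] at h1
    have h2 : 0 ≤ e * a * ⟪u1, u1⟫ := by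
      have : e * -(a * ⟪u1, u1⟫) = -(e * a * ⟪u1, u1⟫) := by ring
      linarith
    by_contra hcon
    push Not at hcon
    have := mul_neg_of_neg_of_pos hcon hD
    linarith
  obtain ⟨w, hw, a, b, hab, ha⟩ : ∃ w ∈ P.act (e • y + c), ∃ a b : ℝ,
      w = a • u + b • v ∧ 0 < e * a := by
    by_contra hcon
    push Not at hcon
    have h1 := hB u1 hvu1 (by
      intro w hw
      obtain ⟨a, b, hab, ha⟩ := hspan w hw
      have h2 := hcon w hw a b hab
      have h3 : e * a = 0 := le_antisymm h2 ha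
      rw [hab, inner_add_left, inner_smul_left, inner_smul_left, hvu1, huu1]
      simp only [conj_trivial, mul_zero, add_zero]
      rw [← mul_assoc, h3, zero_mul])
    rw [huu1] at h1
    linarith
  have ha0 : a ≠ 0 := by
    intro h0
    rw [h0, mul_zero] at ha
    exact lt_irrefl _ ha
  have hne : v' ≠ w := by
    intro h0
    rw [hst, hab] at h0
    have h1 : a • u + (b + e) • v = 0 := by
      rw [add_smul, ← add_assoc, ← h0]
      abel
    exact ha0 (hli _ _ h1).1
  have hsA : v' ∈ P.act (e • y + c) := ⟨hm.mem', hy'.2⟩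
  refine ⟨w, e * a, e * b, ?_, hne, ha, ?_⟩
  · refine Set.Subset.antisymm ?_ ?_
    · intro t ht
      by_contra hcon
      rw [mem_insert_iff, mem_singleton_iff, not_or] at hcon
      have h3 := act_three hy'.1 hsA hw ht hne (Ne.symm hcon.1) (Ne.symm hcon.2)
      obtain ⟨a', b', hab', -⟩ := hspan t ht
      rw [Fintype.linearIndependent_iff] at h3
      have h4 := h3 ![a * b' - a' * b, a' * (-e), -(a * (-e))] (by
        rw [Fin.sum_univ_three]
        simp only [Matrix.cons_val_zero, Matrix.cons_val_one, Matrix.cons_val_two,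
          Matrix.head_cons, Matrix.tail_cons]
        rw [hst, hab, hab']
        module) 2
      simp only [Matrix.cons_val_two, Matrix.head_cons, Matrix.tail_cons] at h4
      have h5 : a * e = 0 := by linarith
      rcases mul_eq_zero.1 h5 with h6 | h6
      · exact ha0 h6
      · exact he0 h6
    · intro t ht
      rcases ht with rfl | ht
      · exact hsA
      · rw [mem_singleton_iff.1 ht]
        exact hw
  · rw [hab, smul_add, smul_smul, smul_smul, ← mul_assoc, ← mul_assoc, hee, one_mul, one_mul]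

/-- the minimal face is mapped to the minimal face -/
theorem mf_step {e : ℝ} {c v v' y : E} (hm : Mv P e c v v') (hy : y ∈ P.fc v) :
    (fun z => e • z + c) '' P.mf y = P.mf (e • y + c) := by
  have hee : e * e = 1 := by
    rcases hm.sgn with rfl | rfl <;> norm_num
  have hline : ∀ (z : E) (s : ℝ), e • (y + s • (y - z)) + c =
      (e • y + c) + s • ((e • y + c) - (e • z + c)) := by
    intro z s
    module
  have hy' : e • y + c ∈ P.fc v' := (hm.iff y).1 hy
  ext w
  constructor
  · rintro ⟨z, ⟨hz, s, hs, hzs⟩, rfl⟩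
    have hzf : z ∈ P.fc v := mf_fc hm.mem hy ⟨hz, s, hs, hzs⟩
    have h1 : y + s • (y - z) ∈ P.fc v := by
      refine ⟨hzs, ?_⟩
      rw [inner_add_right, inner_smul_right, inner_sub_right, hy.2, hzf.2]
      ring
    refine ⟨((hm.iff z).1 hzf).1, s, hs, ?_⟩
    have h2 := ((hm.iff _).1 h1).1
    rwa [hline] at h2
  · rintro ⟨hw, s, hs, hws⟩
    have hwf : w ∈ P.fc v' := mf_fc hm.mem' hy' ⟨hw, s, hs, hws⟩
    have hzw : e • (e • (w - c)) + c = w := by
      rw [smul_smul, hee, one_smul]
      abel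
    have hz : e • (w - c) ∈ P.fc v := (hm.iff _).2 (by rw [hzw]; exact hwf)
    have h1 : e • (y + s • (y - e • (w - c))) + c = (e • y + c) + s • ((e • y + c) - w) := by
      rw [hline, hzw]
    have h2 : (e • y + c) + s • ((e • y + c) - w) ∈ P.fc v' := by
      refine ⟨hws, ?_⟩
      rw [inner_add_right, inner_smul_right, inner_sub_right, hy'.2, hwf.2]
      ring
    rw [← h1] at h2
    exact ⟨e • (w - c), ⟨hz.1, s, hs, ((hm.iff _).2 h2).1⟩, hzw⟩

/-- crossing a facet of a tile of a facet-to-facet tiling -/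
theorem cross {T : Set (ℝ × E)} (hT : IsFF P T) {τ : ℝ × E} (hτ : τ ∈ T) {v : E} (hv : v ∈ P.N) :
    ∃ σ ∈ T, σ ≠ τ ∧ ∃ v', Mv P (σ.1 * τ.1) (σ.1 • (τ.2 - σ.2)) v v' ∧
      ∀ z, crd σ (X τ z) = (σ.1 * τ.1) • z + σ.1 • (τ.2 - σ.2) := by
  obtain ⟨σ, hσ, hne, v', hv', hF⟩ := hT.facet τ hτ v hv
  have hs := hT.sign σ hσ
  have ht := hT.sign τ hτ
  have hn := Pool.FF79.facet_normal P ht hs hv hv' (hT.disj τ hτ σ hσ hne.symm) hF
  have hss : σ.1 * σ.1 = 1 := by
    rcases hs with h | h <;> rw [h] <;> norm_num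
  have hcr : ∀ z, crd σ (X τ z) = (σ.1 * τ.1) • z + σ.1 • (τ.2 - σ.2) := by
    intro z
    unfold crd X
    rw [mul_smul]
    module
  refine ⟨σ, hσ, hne, v', ⟨?_, hv, hv', ?_, ?_⟩, hcr⟩
  · rcases hs with h | h <;> rcases ht with h' | h' <;> rw [h, h'] <;> norm_num
  · have h1 := congrArg (fun w => σ.1 • w) hn
    simp only [smul_smul, hss, one_smul, smul_neg] at h1
    exact h1
  · intro z
    rw [← hcr]
    constructor
    · intro hz
      have h1 : X τ z ∈ X σ '' P.fc v' := by
        rw [hF]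
        exact ⟨z, hz, rfl⟩
      obtain ⟨z', hz', h2⟩ := h1
      rw [← h2, crd_X hs]
      exact hz'
    · intro hz
      have h1 : X τ z ∈ X τ '' P.fc v := by
        rw [← hF]
        exact ⟨_, hz, X_crd hs _⟩
      obtain ⟨z', hz', h2⟩ := h1
      have h3 := congrArg (crd τ) h2
      rw [crd_X ht, crd_X ht] at h3
      rw [← h3]
      exact hz'

end Pool.FF25
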